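import Mathlib
import Pool.Agent.Lib.helper4.SkewL

set_option autoImplicit false

open Pool.Agent.Lib.helper4 Pool.Agent.Lib.helper4.SkewLaurent

namespace Pool.Agent.Results.MP_d4f5ca_al.NotSemidistrib

/-- The right ideal `D` of `R` is a distributive right module: the lattice of its submodules
(the right ideals of `R` contained in `D`) is distributive. -/
def Distributive {R : Type} [Ring R] (D : Submodule Rᵐᵒᵖ R) : Prop :=
  ∀ F G H : Submodule Rᵐᵒᵖ R, F ≤ D → G ≤ D → H ≤ D → F ⊓ (G ⊔ H) = F ⊓ G ⊔ F ⊓ H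

/-- `R` is right semidistributive: `R_R` is a direct sum of distributive submodules. -/
def RightSemidistrib (R : Type) [Ring R] : Prop :=
  ∃ (ι : Type) (D : ι → Submodule Rᵐᵒᵖ R), iSupIndep D ∧ ⨆ i, D i = ⊤ ∧ ∀ i, Distributive (D i)

/-- Proof device: the six-dimensional algebra over `𝔽₂` with two vertices, a loop at each vertex,
an arrow in each direction, and radical square zero. -/
@[ext] structure T where
  a1 : ZMod 2
  a2 : ZMod 2
  p1 : ZMod 2
  p2 : ZMod 2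
  q1 : ZMod 2
  q2 : ZMod 2

instance : Zero T := ⟨⟨0, 0, 0, 0, 0, 0⟩⟩
instance : One T := ⟨⟨1, 1, 0, 0, 0, 0⟩⟩
instance : Add T := ⟨fun x y => ⟨x.a1 + y.a1, x.a2 + y.a2, x.p1 + y.p1, x.p2 + y.p2,
  x.q1 + y.q1, x.q2 + y.q2⟩⟩
instance : Neg T := ⟨fun x => ⟨-x.a1, -x.a2, -x.p1, -x.p2, -x.q1, -x.q2⟩⟩
instance : Mul T := ⟨fun x y => ⟨x.a1 * y.a1, x.a2 * y.a2, x.a1 * y.p1 + x.p1 * y.a1,
  x.a2 * y.p2 + x.p2 * y.a2, x.a1 * y.q1 + x.q1 * y.a2, x.a2 * y.q2 + x.q2 * y.a1⟩⟩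

theorem zero_def : (0 : T) = ⟨0, 0, 0, 0, 0, 0⟩ := rfl
theorem one_def' : (1 : T) = ⟨1, 1, 0, 0, 0, 0⟩ := rfl
theorem add_def (x y : T) : x + y = ⟨x.a1 + y.a1, x.a2 + y.a2, x.p1 + y.p1, x.p2 + y.p2,
  x.q1 + y.q1, x.q2 + y.q2⟩ := rfl
theorem neg_def (x : T) : -x = ⟨-x.a1, -x.a2, -x.p1, -x.p2, -x.q1, -x.q2⟩ := rfl
theorem mul_def (x y : T) : x * y = ⟨x.a1 * y.a1, x.a2 * y.a2, x.a1 * y.p1 + x.p1 * y.a1,
  x.a2 * y.p2 + x.p2 * y.a2, x.a1 * y.q1 + x.q1 * y.a2, x.a2 * y.q2 + x.q2 * y.a1⟩ := rfl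

instance : Ring T := Ring.ofMinimalAxioms
  (fun a b c => by ext <;> simp [add_def, add_assoc])
  (fun a => by ext <;> simp [add_def, zero_def])
  (fun a => by ext <;> simp only [add_def, zero_def, neg_def, neg_add_cancel])
  (fun a b c => by ext <;> simp only [mul_def] <;> ring)
  (fun a => by ext <;> simp [mul_def, one_def'])
  (fun a => by ext <;> simp [mul_def, one_def'])
  (fun a b c => by ext <;> simp only [mul_def, add_def] <;> ring)
  (fun a b c => by ext <;> simp only [mul_def, add_def] <;> ring)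

instance : Finite T := Finite.of_injective
  (fun x : T => (x.a1, x.a2, x.p1, x.p2, x.q1, x.q2)) fun x y h => by
    simp only [Prod.mk.injEq] at h
    ext <;> tauto

/-- Proof device: the automorphism exchanging the two vertices. -/
def sw : RingAut T where
  toFun x := ⟨x.a2, x.a1, x.p2, x.p1, x.q2, x.q1⟩
  invFun x := ⟨x.a2, x.a1, x.p2, x.p1, x.q2, x.q1⟩
  left_inv _ := rfl
  right_inv _ := rfl
  map_mul' _ _ := rfl
  map_add' _ _ := rfl

theorem sw_apply (x : T) : sw x = ⟨x.a2, x.a1, x.p2, x.p1, x.q2, x.q1⟩ := rfl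

/-- Proof device: the projective right ideals `e₁ T` and `e₂ T`. -/
def D (b : Bool) : Submodule Tᵐᵒᵖ T where
  carrier := {x | if b then x.a2 = 0 ∧ x.p2 = 0 ∧ x.q2 = 0 else x.a1 = 0 ∧ x.p1 = 0 ∧ x.q1 = 0}
  zero_mem' := by cases b <;> simp [zero_def]
  add_mem' := by
    intro x y hx hy
    cases b <;> simp_all [add_def]
  smul_mem' := by
    intro c x hx
    change x * c.unop ∈ _
    cases b <;> simp_all [mul_def]

theorem key (b : Bool) (g h : T) (hg : g ∈ D b) (hh : h ∈ D b) :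
    ∃ r r' s t : T, r + r' = 1 ∧ (g + h) * r = g * s ∧ (g + h) * r' = h * t := by
  have z2 : ∀ a : ZMod 2, a = 0 ∨ a = 1 := by decide
  obtain ⟨a1, a2, p1, p2, q1, q2⟩ := g
  obtain ⟨b1, b2, u1, u2, v1, v2⟩ := h
  cases b
  · obtain ⟨rfl, rfl, rfl⟩ : a1 = 0 ∧ p1 = 0 ∧ q1 = 0 := hg
    obtain ⟨rfl, rfl, rfl⟩ : b1 = 0 ∧ u1 = 0 ∧ v1 = 0 := hh
    rcases z2 a2 with rfl | rfl
    · rcases z2 b2 with rfl | rfl
      · refine ⟨⟨q2, p2, 0, 0, 0, 0⟩, ⟨1 + q2, 1 + p2, 0, 0, 0, 0⟩,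
          ⟨1 + v2, 1 + u2, 0, 0, 0, 0⟩, ⟨1 + q2, 1 + p2, 0, 0, 0, 0⟩, ?_⟩
        simp only [mul_def, add_def, one_def', T.mk.injEq]
        revert p2 q2 u2 v2; decide
      · refine ⟨0, 1, 0, ⟨1, 1, 0, p2, 0, q2⟩, ?_⟩
        simp only [mul_def, add_def, one_def', zero_def, T.mk.injEq]
        revert p2 q2 u2 v2; decide
    · refine ⟨1, 0, ⟨1, 1 + b2, 0, u2 + p2 * b2, 0, v2⟩, 0, ?_⟩
      simp only [mul_def, add_def, one_def', zero_def, T.mk.injEq]
      revert p2 q2 u2 v2 b2; decide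
  · obtain ⟨rfl, rfl, rfl⟩ : a2 = 0 ∧ p2 = 0 ∧ q2 = 0 := hg
    obtain ⟨rfl, rfl, rfl⟩ : b2 = 0 ∧ u2 = 0 ∧ v2 = 0 := hh
    rcases z2 a1 with rfl | rfl
    · rcases z2 b1 with rfl | rfl
      · refine ⟨⟨p1, q1, 0, 0, 0, 0⟩, ⟨1 + p1, 1 + q1, 0, 0, 0, 0⟩,
          ⟨1 + u1, 1 + v1, 0, 0, 0, 0⟩, ⟨1 + p1, 1 + q1, 0, 0, 0, 0⟩, ?_⟩
        simp only [mul_def, add_def, one_def', T.mk.injEq]
        revert p1 q1 u1 v1; decide
      · refine ⟨0, 1, 0, ⟨1, 1, p1, 0, q1, 0⟩, ?_⟩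
        simp only [mul_def, add_def, one_def', zero_def, T.mk.injEq]
        revert p1 q1 u1 v1; decide
    · refine ⟨1, 0, ⟨1 + b1, 1, u1 + p1 * b1, 0, v1, 0⟩, 0, ?_⟩
      simp only [mul_def, add_def, one_def', zero_def, T.mk.injEq]
      revert p1 q1 u1 v1 b1; decide

theorem semidistrib : RightSemidistrib T := by
  refine ⟨Bool, D, ?_, ?_, fun b F G H _ hG hH => le_antisymm ?_ le_inf_sup⟩
  · rw [iSupIndep_pair (i := true) (j := false) (by simp) (by simp), Submodule.disjoint_def]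
    rintro x ⟨h1, h2, h3⟩ ⟨h4, h5, h6⟩
    ext <;> assumption
  · rw [eq_top_iff]
    intro x _
    have : x = (⟨x.a1, 0, x.p1, 0, x.q1, 0⟩ : T) + ⟨0, x.a2, 0, x.p2, 0, x.q2⟩ := by
      ext <;> simp [add_def]
    rw [this]
    exact add_mem (Submodule.mem_iSup_of_mem true ⟨rfl, rfl, rfl⟩)
      (Submodule.mem_iSup_of_mem false ⟨rfl, rfl, rfl⟩)
  · rintro x ⟨hx, hx'⟩
    obtain ⟨g, hg, h, hh, rfl⟩ := Submodule.mem_sup.1 hx'
    obtain ⟨r, r', s, t, h1, h2, h3⟩ := key b g h (hG hg) (hH hh)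
    refine Submodule.mem_sup.2 ⟨(g + h) * r, ⟨F.smul_mem (MulOpposite.op r) hx, ?_⟩,
      (g + h) * r', ⟨F.smul_mem (MulOpposite.op r') hx, ?_⟩, by rw [← mul_add, h1, mul_one]⟩
    · rw [h2]; exact G.smul_mem (MulOpposite.op s) hg
    · rw [h3]; exact H.smul_mem (MulOpposite.op t) hh

theorem fix {A : Type} [Ring A] (φ : RingAut A) (a : A) (h : φ a = a) (k : ℤ) : (φ ^ k) a = a :=
  (MulAction.stabilizer (RingAut A) a).zpow_mem (show φ ∈ MulAction.stabilizer (RingAut A) a from h) k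

theorem result : ∃ (A : Type) (_ : Ring A) (φ : RingAut A),
    RightSemidistrib A ∧ IsArtinian Aᵐᵒᵖ A ∧ ¬ RightSemidistrib (SkewLaurent φ) := by
  refine ⟨T, inferInstance, sw, semidistrib, isArtinian_of_finite, ?_⟩
  rintro ⟨ι, E, -, htop, hE⟩
  let p : T := ⟨0, 0, 1, 1, 0, 0⟩
  let q : T := ⟨0, 0, 0, 0, 1, 1⟩
  let P : SkewLaurent sw := single sw 0 p
  let Q : SkewLaurent sw := single sw 1 q
  have cP : ∀ f n, (f * P).coeff n = f.coeff n * p := fun f n => by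
    rw [coeff_mul_single, fix sw p rfl, sub_zero]
  have cQ : ∀ f n, (f * Q).coeff n = f.coeff (n - 1) * q := fun f n => by
    rw [coeff_mul_single, fix sw q rfl]
  have hP : ∀ f, P * f = f * P := fun f => SkewLaurent.ext fun n => by
    rw [cP, coeff_single_mul, zpow_zero, sub_zero]
    ext <;> simp [p, mul_def]
  have hQ : ∀ f, Q * f = f * Q := fun f => SkewLaurent.ext fun n => by
    rw [cQ, coeff_single_mul, zpow_one]
    ext <;> simp [q, mul_def, sw_apply]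
  have ha : ∀ f g, f * P = g * Q → f * P = 0 := fun f g h => SkewLaurent.ext fun n => by
    have h1 := congrArg (fun z => z.coeff n) h
    simp only [cP, cQ, mul_def, p, q, T.mk.injEq, mul_zero, mul_one, add_zero] at h1
    rw [cP, coeff_zero]
    ext <;> simp [p, mul_def, zero_def, h1.2.2.1, h1.2.2.2.1]
  have hb : ∀ f, f * Q = 0 → f * P = 0 := fun f h => SkewLaurent.ext fun n => by
    have h1 := congrArg (fun z => z.coeff (n + 1)) h
    simp only [cQ, mul_def, q, coeff_zero, zero_def, T.mk.injEq, add_sub_cancel_right, mul_zero,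
      mul_one, add_zero] at h1
    rw [cP, coeff_zero]
    ext <;> simp [p, mul_def, zero_def, h1.2.2.2.2.1, h1.2.2.2.2.2]
  let N : Submodule (SkewLaurent sw)ᵐᵒᵖ (SkewLaurent sw) :=
    { carrier := {f | f * P = 0}
      zero_mem' := zero_mul P
      add_mem' := fun {a b} h1 h2 => by
        change (a + b) * P = 0
        rw [add_mul, show a * P = 0 from h1, show b * P = 0 from h2, add_zero]
      smul_mem' := fun c x hx => by
        change x * c.unop * P = 0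
        rw [mul_assoc, ← hP, ← mul_assoc, show x * P = 0 from hx, zero_mul] }
  have hle : ∀ i, E i ≤ N := by
    intro i e he
    have hm : e * P ∈ E i := (E i).smul_mem (MulOpposite.op P) he
    have hn : e * Q ∈ E i := (E i).smul_mem (MulOpposite.op Q) he
    have h1 := hE i (Submodule.span _ {e * P + e * Q}) (Submodule.span _ {e * P})
      (Submodule.span _ {e * Q}) (by simpa using add_mem hm hn) (by simpa using hm)
      (by simpa using hn)
    have h2 : e * P + e * Q ∈ Submodule.span (SkewLaurent sw)ᵐᵒᵖ {e * P + e * Q} ⊓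
        (Submodule.span _ {e * P} ⊔ Submodule.span _ {e * Q}) :=
      ⟨Submodule.mem_span_singleton_self _, Submodule.add_mem_sup
        (Submodule.mem_span_singleton_self _) (Submodule.mem_span_singleton_self _)⟩
    rw [h1] at h2
    obtain ⟨u, ⟨hu1, hu2⟩, v, ⟨-, hv⟩, huv⟩ := Submodule.mem_sup.1 h2
    obtain ⟨r, rfl⟩ := Submodule.mem_span_singleton.1 hu1
    obtain ⟨s, hs⟩ := Submodule.mem_span_singleton.1 hu2
    obtain ⟨t, rfl⟩ := Submodule.mem_span_singleton.1 hv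
    change e * P * s.unop = (e * P + e * Q) * r.unop at hs
    change (e * P + e * Q) * r.unop + e * Q * t.unop = _ at huv
    have e1 : ∀ z, e * P * z = e * z * P := fun z => by rw [mul_assoc, hP, mul_assoc]
    have e2 : ∀ z, e * Q * z = e * z * Q := fun z => by rw [mul_assoc, hQ, mul_assoc]
    rw [add_mul, e1, e1, e2] at hs
    rw [add_mul, e1, e2, e2] at huv
    have h3 : (e * s.unop - e * r.unop) * P = e * r.unop * Q := by rw [sub_mul, hs]; abel
    have h4 : e * r.unop * Q = 0 := by rw [← h3]; exact ha _ _ h3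
    rw [h4, hb _ h4, zero_add, zero_add] at huv
    exact ha e (e * t.unop - e) (by rw [sub_mul, huv]; abel)
  have h1 : (1 : SkewLaurent sw) ∈ N := (iSup_le hle : ⨆ i, E i ≤ N) (htop ▸ Submodule.mem_top)
  have h2 := congrArg (fun z => z.coeff 0) (show 1 * P = 0 from h1)
  simp [P, coeff_single, p, zero_def] at h2

end Pool.Agent.Results.MP_d4f5ca_al.NotSemidistrib
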